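import Pool.Agent.H43.Avg4

set_option autoImplicit false
set_option linter.unusedSectionVars false

namespace Pool.Agent.Results.MP_e8a7ad_pr.Converges

open MeasureTheory ProbabilityTheory Filter Topology Finset Real Pool.Agent.H43.Ex Pool.Agent.H43.Avg
open scoped Nat

noncomputable section

variable {d : ℕ} {Ω : Type} {mΩ : MeasurableSpace Ω} {P : Measure Ω} [IsProbabilityMeasure P]
  {ℱ : Filtration ℝ mΩ} {N : E d → ℝ → Ω → ℕ} {f m : ℝ → Ω → V d → ℝ} {M C : ℝ}

section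
variable (H : EdgeAvg P ℱ N f) (hM : 0 ≤ M) (hb : ∀ᵐ ω ∂P, ∀ v, |f 0 ω v| ≤ M) (A : Aux ℱ m M C)
include H hM hb A

lemma first (v : V d) {ε T : ℝ} (hε : 0 < ε) (s : ℕ → ℝ) (s0 : ∀ j, 0 ≤ s j) (hs : Monotone s) (c : ℕ → Prop)
    (hc : ∀ j, c j → s j ≤ T ∧ T - s j ≤ 1 ∧ (C + cJ d * M) * (T - s j) ≤ ε / 2) (hT : 0 ≤ T) (n : ℕ) :
    P.real {ω | ∃ j < n, c j ∧ ε < |FF M f (s j) ω v - m (s j) ω v|} ≤
      exp (k0 d) * (4 / ε ^ 2) * U P M f m v v T := by
  set W := {ω | (ε / 2) ^ 2 < (FF M f T ω v - m T ω v) * (FF M f T ω v - m T ω v)}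
  have bW := (hh_bm H hM A hT v).mul (hh_bm H hM A hT v)
  have mW : MeasurableSet W := measurableSet_lt measurable_const bW.1
  let G : ℕ → Set Ω := fun n => {ω | ∃ j < n, c j ∧ ε < |FF M f (s j) ω v - m (s j) ω v|}
  have mG : ∀ n t, (∀ j < n, s j ≤ t) → MeasurableSet[ℱ t] (G n) := fun n t ht => by
    have : G n = ⋃ j ∈ {j | j < n ∧ c j}, {ω | ε < |FF M f (s j) ω v - m (s j) ω v|} := by
      ext; simp [G, and_assoc]
    rw [this]
    refine @MeasurableSet.biUnion _ _ (ℱ t) _ _ (Set.to_countable _) fun j hj => ?_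
    exact (continuous_abs.measurable.comp (((ff_meas H hM (s0 j) v).mono (ℱ.mono (ht j hj.1)) le_rfl).sub
      ((A.meas _ v).mono (ℱ.mono ((s0 j).trans (ht j hj.1))) le_rfl))) measurableSet_Ioi
  have k : ∀ n, P.real (G n) * exp (-k0 d) ≤ P.real (W ∩ G n) := by
    intro n
    induction n with
    | zero => simp [G]
    | succ n ih =>
      have m1 := mG n (s n) fun j hj => hs hj.le
      have m2 := mG (n + 1) (s n) fun j hj => hs (by omega)
      have sub : G n ⊆ G (n + 1) := fun ω ⟨j, hj, h⟩ => ⟨j, by omega, h⟩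
      have a1 := measureReal_inter_add_sdiff (μ := P) (s := G (n + 1)) (ℱ.le _ _ m1)
      have a2 := measureReal_inter_add_sdiff (μ := P) (s := W ∩ G (n + 1)) (ℱ.le _ _ m1)
      rw [Set.inter_eq_self_of_subset_right sub] at a1
      rw [Set.inter_assoc, Set.inter_eq_self_of_subset_right sub] at a2
      suffices P.real (G (n + 1) \ G n) * exp (-k0 d) ≤ P.real ((W ∩ G (n + 1)) \ G n) by rw [← a1, ← a2, add_mul]; linarith
      have hD : ∀ ω ∈ G (n + 1) \ G n, c n ∧ ε < |FF M f (s n) ω v - m (s n) ω v| := fun ω ⟨⟨j, hj, h⟩, h2⟩ => by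
        rcases Nat.lt_succ_iff_lt_or_eq.1 hj with h3 | rfl
        exacts [absurd ⟨j, h3, h⟩ h2, h]
      by_cases cn : c n
      swap
      · rw [Set.eq_empty_of_forall_notMem fun ω h => cn (hD ω h).1]; simp
      obtain ⟨c1, c2, c3⟩ := hc n cn
      have hh := sub_nonneg.2 c1
      have b1 := H.pat_int (s0 n) hh (nb v) 0 (X := (G (n + 1) \ G n).indicator 1) (measurable_const.indicator (m2.diff m1))
      have mD := ℱ.le _ _ (m2.diff m1)
      simp only [← Pi.mul_apply ((G (n + 1) \ G n).indicator 1), ← Set.inter_indicator_one] at b1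
      rw [integral_indicator_one (mD.inter (H.pat_meas (s0 n) hh _ _)), integral_indicator_one mD,
        H.pat_prob (s0 n) hh] at b1
      have b2 : exp (-k0 d) ≤ ∏ a ∈ nb v, exp (-(T - s n)) * (T - s n) ^ (0 : E d → ℕ) a / ((0 : E d → ℕ) a)! := by
        simp only [Pi.zero_apply, pow_zero, mul_one, Nat.factorial_zero, Nat.cast_one, div_one, prod_const,
          ← exp_nat_mul, exp_le_exp]
        have : ((nb v).card : ℝ) ≤ k0 d := by exact_mod_cast nb_card v
        nlinarith [mul_le_mul this c2 hh (Nat.cast_nonneg _)]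
      refine (mul_le_mul_of_nonneg_left b2 measureReal_nonneg).trans (b1 ▸ ?_)
      refine ENNReal.toReal_mono (measure_ne_top _ _) (measure_mono_ae ?_)
      filter_upwards [ff_path H hM hb A (s0 n) hh] with ω hω ⟨h1, h2⟩
      refine ⟨⟨?_, h1.1⟩, h1.2⟩
      have e1 := (hω _ _ (nb_good v)).1 h2
      have e2 := (A.lip (s0 n) hh c2 ω v).trans c3
      have e3 := (hD ω h1).2
      rw [add_sub_cancel] at e1 e2
      simp only [W, Set.mem_ofPred_eq, e1, ← sq]
      refine sq_lt_sq.2 ?_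
      rw [abs_of_pos (half_pos hε)]
      linarith [abs_sub_le (FF M f (s n) ω v) (m T ω v) (m (s n) ω v)]
  have a1 := cheb (ν := P) bW (fun _ => mul_self_nonneg _) ((ε / 2) ^ 2)
  have a2 := (k n).trans (measureReal_mono Set.inter_subset_left (measure_ne_top _ _))
  rw [exp_neg, ← div_eq_mul_inv, div_le_iff₀ (exp_pos _)] at a2
  refine a2.trans ?_
  rw [mul_assoc, mul_comm]
  gcongr
  rw [div_mul_eq_mul_div, le_div_iff₀ (by positivity)]
  change _ ≤ U P M f m v v T at a1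
  linarith

lemma close (hL : ∀ l, 0 < l → ∀ x, lap l (U P M f m x x) ≤ (2 * M) ^ 2) (v : V d) {ε : ℝ} (hε : 0 < ε) :
    ∀ᵐ ω ∂P, ∀ᶠ t in atTop, |f t ω v - m t ω v| ≤ ε := by
  have hK : 0 ≤ C + cJ d * M := add_nonneg A.C0 (mul_nonneg cJ_nonneg hM)
  obtain ⟨δ, d0, d1, d2⟩ : ∃ δ : ℝ, 0 < δ ∧ 2 * δ ≤ 1 ∧ (C + cJ d * M) * (2 * δ) ≤ ε / 2 := by
    refine ⟨min (1 / 2) (ε / (4 * (C + cJ d * M + 1))), by positivity, by linarith [min_le_left (1 / 2) (ε / (4 * (C + cJ d * M + 1)))], ?_⟩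
    have := (le_div_iff₀ (by positivity)).1 (min_le_right (1 / 2) (ε / (4 * (C + cJ d * M + 1))))
    have : 0 < min (1 / 2) (ε / (4 * (C + cJ d * M + 1))) := by positivity
    nlinarith
  set K := exp (k0 d) * (4 / ε ^ 2)
  let S : ℕ → Set Ω := fun k => {ω | ∃ t, k * δ ≤ t ∧ t < (k + 1) * δ ∧ ε < |f t ω v - m t ω v|}
  have n := U_nice H hM hb A v v
  have u0 : ∀ t, 0 ≤ U P M f m v v t := fun t => integral_nonneg fun _ => mul_self_nonneg _
  have a1 : ∀ (k : ℕ) T, (k + 1) * δ ≤ T → T ≤ (k + 2) * δ → P.real (S k) ≤ K * U P M f m v v T := by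
    intro k T t1 t2
    refine ENNReal.toReal_le_of_le_ofReal (mul_nonneg (by positivity) (u0 T)) (liminf_le (fun i : ℕ => ?_) (hS := ?_)
      (E := fun i => {ω | ∃ j < ⌊(k + 1) * δ * (i + 1)⌋₊ + 1, (k * δ ≤ (j : ℝ) * (1 / (i + 1)) ∧
        (j : ℝ) * (1 / (i + 1)) ≤ (k + 1) * δ) ∧ ε < |FF M f (j * (1 / (i + 1))) ω v - m (j * (1 / (i + 1))) ω v|}))
    · filter_upwards [H.stay, ae_all_iff.2 fun i : ℕ => ae_all_iff.2 fun j : ℕ =>
        H.bdd hb (t := j * (1 / (i + 1))) (by positivity)] with ω h1 h2 ⟨t, c1, c2, c3⟩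
      have ht : 0 ≤ t := le_trans (by positivity) c1
      have c4 : ∀ᶠ s in 𝓝[≥] t, ε < |f t ω v - m s ω v| := by
        have := (cont (u := fun s => m s ω v) fun t h ht hh h1 => A.lip ht hh h1 ω v) t ht
        exact (((tendsto_const_nhds.sub this).abs).eventually (lt_mem_nhds c3)).filter_mono
          (nhdsWithin_mono _ (Set.Ici_subset_Ici.2 ht))
      have c5 : ∀ᶠ s in 𝓝[≥] t, t ≤ s ∧ s < (k + 1) * δ ∧ ε < |f s ω v - m s ω v| := by
        filter_upwards [c4, self_mem_nhdsWithin, nhdsWithin_le_nhds (Iio_mem_nhds c2),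
          eventually_all.2 fun j => H.N_right (ed v j) ω t ht] with s e1 e2 e3 e4
        refine ⟨e2, e3, ?_⟩
        rwa [h1 v t s ht e2 fun a ha => by obtain ⟨j, rfl⟩ := touch_iff.1 ha; exact (e4 j).symm]
      filter_upwards [(ceil_lim ht).1.eventually c5] with i ⟨e1, e2, e3⟩
      refine ⟨⌈t * (i + 1)⌉₊, Nat.lt_succ_of_le (Nat.le_floor ?_), ⟨c1.trans e1, e2.le⟩, ?_⟩
      · rw [mul_one_div, div_lt_iff₀ (by positivity)] at e2; exact e2.le
      · rwa [FF, clip_eq (h2 _ _ _)]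
    · refine first H hM hb A v hε (fun j => j * (1 / (i + 1))) (fun j => by positivity)
        (fun a b h => by simp only; gcongr) _ (fun j ⟨h1, h2⟩ => ⟨by linarith, by linarith, le_trans ?_ d2⟩)
        (le_trans (by positivity) t1) _
      gcongr; linarith
  have ii : ∀ a b, 0 ≤ a → a ≤ b → IntervalIntegrable (U P M f m v v) volume a b := fun a b h1 h2 =>
    (n.1.mono fun x hx => h1.trans (by rw [Set.uIcc_of_le h2] at hx; exact hx.1)).intervalIntegrable
  have a2 : ∀ k : ℕ, δ * P.real (S k) ≤ K * ∫ t in ((k + 1) * δ)..((k + 2) * δ), U P M f m v v t := fun k => by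
    have := intervalIntegral.integral_mono_on (μ := volume) (show (k + 1) * δ ≤ (k + 2) * δ by gcongr; norm_num)
      intervalIntegrable_const ((ii _ _ (by positivity) (by gcongr; norm_num)).const_mul K) fun t ht => a1 k t ht.1 ht.2
    rw [intervalIntegral.integral_const_mul, intervalIntegral.integral_const, smul_eq_mul] at this
    linarith
  have a3 : Summable fun k => P.real (S k) := by
    refine summable_of_sum_range_le (c := K * (exp 1 * (2 * M) ^ 2) / δ) (fun _ => measureReal_nonneg) fun r => ?_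
    rw [le_div_iff₀ d0, mul_comm, mul_sum]
    refine (sum_le_sum fun k _ => a2 k).trans ?_
    rw [← mul_sum]
    gcongr
    have b1 := intervalIntegral.sum_integral_adjacent_intervals (a := fun k : ℕ => (k : ℝ) * δ) (n := r + 1)
      fun k _ => ii _ _ (by positivity) (by gcongr; omega)
    have b2 := int_le n (fun t _ => u0 t) (fun l hl => hL l hl v) (show 0 < ((r + 1 : ℕ) : ℝ) * δ by positivity)
    have b3 : 0 ≤ ∫ t in (0 : ℝ)..δ, U P M f m v v t := intervalIntegral.integral_nonneg d0.le fun t _ => u0 t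
    rw [sum_range_succ'] at b1
    push_cast at b1 b2
    simp only [zero_mul, zero_add, one_mul, add_assoc, one_add_one_eq_two] at b1
    linarith
  have a4 := ae_eventually_notMem (μ := P) (s := S) (by
    simpa [Measure.real] using a3.tsum_ofReal_ne_top)
  filter_upwards [a4] with ω hω
  have : Tendsto (fun t : ℝ => ⌊t / δ⌋₊) atTop atTop := tendsto_nat_floor_atTop.comp (tendsto_id.atTop_div_const d0)
  filter_upwards [this.eventually hω, eventually_ge_atTop 0] with t h1 h2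
  refine not_lt.1 fun h => h1 ⟨t, ?_, ?_, h⟩
  · rw [← le_div_iff₀ d0]; exact Nat.floor_le (by positivity)
  · rw [← div_lt_iff₀ d0]; exact Nat.lt_floor_add_one _
end

def τ (a : V d) (η : V d → ℝ) : V d → ℝ := fun x => η (x + a)

lemma τ_meas (a : V d) : Measurable (τ a) := measurable_pi_lambda _ fun _ => measurable_pi_apply _

def TT (d : ℕ) : Module.End ℝ ((V d → ℝ) → ℝ) where
  toFun g η := g η + 1 / cJ d * ∑ j, 1 / 2 * (g (τ (w j) η) - g η)
  map_add' g h := by
    ext η; simp only [Pi.add_apply, mul_sub, mul_add, sum_sub_distrib, sum_add_distrib]; ring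
  map_smul' c g := by
    ext η; simp only [Pi.smul_apply, smul_eq_mul, RingHom.id_apply, mul_sub, sum_sub_distrib, ← mul_sum]; ring

lemma TT_eq (hc : 0 < cJ d) (g : (V d → ℝ) → ℝ) (η : V d → ℝ) :
    TT d g η = 1 / 2 * g η + 1 / (2 * cJ d) * ∑ j, g (τ (w j) η) := by
  change g η + 1 / cJ d * ∑ j, 1 / 2 * (g (τ (w j) η) - g η) = _
  rw [← mul_sum, sum_sub_distrib, sum_const, card_univ, nsmul_eq_mul, ← cJ]
  field_simp; ring

lemma op (hc : 0 < cJ d) {ν : Measure (V d → ℝ)} [IsProbabilityMeasure ν] (h : ∀ a, ν.map (τ a) = ν) :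
    Op ν (TT d) := by
  have bτ : ∀ g a, BM g → BM fun η : V d → ℝ => g (τ a η) := fun g a ⟨h1, B, h2⟩ =>
    ⟨h1.comp (τ_meas a), B, fun _ => h2 _⟩
  have i1 : ∀ g a, BM g → ∫ η, g (τ a η) ∂ν = ∫ η, g η ∂ν := fun g a hg => by
    rw [← integral_map (τ_meas a).aemeasurable hg.1.aestronglyMeasurable, h]
  have i2 : ∀ f g, BM f → BM g → ∫ η, TT d f η * g η ∂ν =
      1 / 2 * ∫ η, f η * g η ∂ν + 1 / (2 * cJ d) * ∑ j, ∫ η, f (τ (w j) η) * g η ∂ν := fun f g hf hg => by
    simp only [TT_eq hc, add_mul, mul_assoc, sum_mul]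
    rw [integral_add (((hf.mul hg).int ν).const_mul _) (((BM.sum (fun j => (bτ f _ hf).mul hg) _).int ν).const_mul _),
      integral_const_mul, integral_const_mul, integral_finsetSum _ fun j _ => ((bτ f _ hf).mul hg).int ν]
  refine ⟨fun f g hfg η => ?_, by ext; simp [TT], fun f hf => ?_, fun f g hf hg => ?_, fun f hf => ?_⟩
  · rw [TT_eq hc, TT_eq hc]; gcongr <;> exact hfg _
  · have := fun a => hf.comp (τ_meas a)
    exact hf.add ((Finset.measurable_sum _ fun j _ => ((this _).sub hf).const_mul _).const_mul _)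
  · simp only [mul_comm (f _) (TT d g _)]
    rw [i2 f g hf hg, i2 g f hg hf, ← fl.sum_comp]
    simp only [mul_comm (f _)]
    congr 3
    ext j
    rw [← i1 _ (w j) (hg.mul (bτ f _ hf))]
    congr 2
    ext η
    congr 2
    ext x; simp [τ, w_fl]
  · rw [i2 f f hf hf]
    have : ∑ _j : J d, -∫ η, f η * f η ∂ν ≤ ∑ j, ∫ η, f (τ (w j) η) * f η ∂ν := sum_le_sum fun j _ => by
      have a1 := int_sq_sub (ν := ν) (bτ f (w j) hf) ((BM.const (-1)).mul hf)
      have a2 : 0 ≤ ∫ η, (f (τ (w j) η) - -1 * f η) ^ 2 ∂ν := integral_nonneg fun _ => sq_nonneg _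
      rw [a1, i1 _ _ (bm_sq hf)] at a2
      simp only [neg_mul, one_mul, mul_neg, integral_neg, sq, neg_neg] at a2
      linarith
    rw [sum_const, card_univ, nsmul_eq_mul, ← cJ] at this
    have h2 := mul_le_mul_of_nonneg_left this (show 0 ≤ 1 / (2 * cJ d) by positivity)
    rw [show 1 / (2 * cJ d) * (cJ d * -∫ η, f η * f η ∂ν) = -(1 / 2 * ∫ η, f η * f η ∂ν) by field_simp] at h2
    linarith

theorem result (d : ℕ) (hd : 1 ≤ d) (Ω : Type) (mΩ : MeasurableSpace Ω) (P : Measure Ω) [IsProbabilityMeasure P]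
    (ℱ : Filtration ℝ mΩ) (N : E d → ℝ → Ω → ℕ) (f : ℝ → Ω → V d → ℝ) (H : EdgeAvg P ℱ N f)
    (M : ℝ) (hb : ∀ᵐ ω ∂P, ∀ v, |f 0 ω v| ≤ M)
    (hst : ∀ a : V d, P.map (fun ω x => f 0 ω (x + a)) = P.map (f 0)) :
    ∀ᵐ ω ∂P, ∀ v, ∃ L, Tendsto (fun t => f t ω v) atTop (𝓝 L) := by
  have hM : 0 ≤ M := let ⟨ω, h⟩ := hb.exists; (abs_nonneg _).trans (h 0)
  have hc : 0 < cJ d := by simp [cJ]; omega
  have m0 : Measurable[ℱ 0] (f 0) := @measurable_pi_lambda _ _ _ (ℱ 0) _ _ fun v => H.f_adapted 0 v le_rfl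
  have m1 : Measurable (f 0) := m0.mono (ℱ.le 0) le_rfl
  haveI := Measure.isProbabilityMeasure_map (μ := P) m1.aemeasurable
  have hν : ∀ a, (P.map (f 0)).map (τ a) = P.map (f 0) := fun a => by
    rw [Measure.map_map (τ_meas a) m1]; exact hst a
  have O := op hc hν
  let g : (V d → ℝ) → ℝ := fun η => clip M (η 0)
  have hg : BM g := ⟨clip_meas.comp (measurable_pi_apply 0), M, fun _ => clip_abs hM _⟩
  have bu := fun η n => O.pow_abs (f := g) (fun _ => clip_abs hM _) n η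
  let m : ℝ → Ω → V d → ℝ := fun t ω x => po (cJ d) (fun n => (TT d ^ n) g (τ x (f 0 ω))) t
  have A : Aux ℱ m M (cJ d * (cJ d * (2 * (2 * M)))) := by
    refine ⟨fun t v => ?_, fun t ω v ht => po_abs (bu _) (by positivity), fun t h ω v ht hh => ?_, by positivity⟩
    · exact ((Measurable.tsum fun n => ((O.pow_bm hg n).1.comp (τ_meas v)).const_mul _).const_mul _).comp m0
    · convert po_taylor hc.le (bu (τ v (f 0 ω))) ht hh using 4
      have e : ∀ j, τ (w j) (τ v (f 0 ω)) = τ (v + w j) (f 0 ω) := fun j => by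
        ext x; simp [τ, add_assoc, add_comm (w j)]
      have : ∀ n, (TT d ^ (n + 1)) g (τ v (f 0 ω)) - (TT d ^ n) g (τ v (f 0 ω)) = 1 / cJ d * (1 / 2) *
          ∑ j, ((TT d ^ n) g (τ (v + w j) (f 0 ω)) - (TT d ^ n) g (τ v (f 0 ω))) := fun n => by
        rw [psucc]
        change _ + 1 / cJ d * ∑ j, 1 / 2 * ((TT d ^ n) g _ - _) - _ = _
        simp only [e, ← mul_sum]; ring
      simp only [this]
      rw [po_fsum (fun j n => sub_abs (bu _ n) (bu _ n))]
      simp only [po_sub (bu _) (bu _), LL, m, ← mul_sum]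
      field_simp
  have h0 : ∀ ω, m 0 ω = FF M f 0 ω := fun ω => by ext x; simp [m, po_zero, g, τ, FF]
  refine ae_all_iff.2 fun v => ?_
  have c1 := ae_of_ae_map m1.aemeasurable (ae_of_ae_map (τ_meas v).aemeasurable ((hν v).symm ▸ O.ae_conv hg))
  filter_upwards [c1, ae_all_iff.2 fun n : ℕ => close H hM hb A (fun l hl => U_lap H hM hb A hst h0 hl) v
    (ε := 1 / (n + 1)) (by positivity)] with ω ⟨L, hL⟩ h2
  refine ⟨L, (po_lim hc (bu _) hL).congr_dist (Metric.tendsto_nhds.2 fun ε hε => ?_)⟩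
  obtain ⟨n, hn⟩ := exists_nat_one_div_lt hε
  filter_upwards [h2 n] with t ht
  rw [Real.dist_eq, sub_zero, abs_of_nonneg dist_nonneg, dist_comm, Real.dist_eq]
  exact ht.trans_lt hn

end

end Pool.Agent.Results.MP_e8a7ad_pr.Converges
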